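import Pool.Agent.W2helper64.SI.Exact

set_option autoImplicit false

/-!
# Patterns of consecutive elements of the random set of Banks, Ford and Tao recur

For every prime `p` a residue class `a p` modulo `p` is chosen uniformly and independently. The random
set `R` consists of the natural numbers `n ≥ e ^ 2` which avoid the class `a p` for every prime `p` with
`∏_(q ≤ p) (1 - 1 / q) ≥ 1 / log n`; this is the random sieve model for the primes of Banks, Ford and
Tao, in which the classes `0 mod p` of the sieve of Eratosthenes are replaced by random ones.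

We prove that almost surely the pattern of every block of `l` consecutive elements of `R` starting at
`m` with `V l ≥ 1 / log m` occurs infinitely often among the blocks of consecutive elements of `R`. So in
the model the length of the shortest uniquely occurring pattern starting at `m` is larger than every such
`l`.
-/

namespace Pool.Agent.Results.MP_e36f12_nt.RandomSieveBlocks

open Filter MeasureTheory Topology

/-- the product `V y = ∏_(p ≤ y, p prime) (1 - 1 / p)` -/
noncomputable def V (y : ℕ) : ℝ := ∏ p ∈ (Finset.Icc 1 y).filter Nat.Prime, (1 - 1 / (p : ℝ))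

/-- the random set: all `n ≥ e ^ 2` outside the chosen class `a p` for every prime `p` with
`V p ≥ 1 / log n` -/
def R (a : (p : Nat.Primes) → ZMod (p : ℕ)) : Set ℕ :=
  {n | Real.exp 2 ≤ n ∧ ∀ p : Nat.Primes, 1 ≤ V (p : ℕ) * Real.log n → ((n : ℕ) : ZMod (p : ℕ)) ≠ a p}

/-- the chosen classes `a p`, `p` prime, are independent and uniform modulo `p` -/
noncomputable def law : Measure ((p : Nat.Primes) → ZMod (p : ℕ)) :=
  Measure.infinitePi fun p : Nat.Primes => ProbabilityTheory.uniformOn (Set.univ : Set (ZMod (p : ℕ)))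

open Classical in
/-- the set of the `j ≤ L` with `m + j ∈ R` -/
noncomputable def block (a : (p : Nat.Primes) → ZMod (p : ℕ)) (m L : ℕ) : Finset ℕ :=
  (Finset.range (L + 1)).filter fun j : ℕ => m + j ∈ R a

theorem mem_block {a : (p : Nat.Primes) → ZMod (p : ℕ)} {m L j : ℕ} :
    j ∈ block a m L ↔ j ≤ L ∧ m + j ∈ R a := by
  unfold block
  rw [Pool.Agent.W2helper64.RK.mf', Finset.mem_range, Nat.lt_succ_iff]

theorem adm_block {a : (p : Nat.Primes) → ZMod (p : ℕ)} {m L : ℕ} (hm : 1 ≤ m)
    (h : 1 ≤ V (block a m L).card * Real.log m) : Pool.Agent.W2helper64.SI.Adm (block a m L) := by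
  classical
  intro p hp
  rcases le_or_gt p (block a m L).card with hle | hlt
  · have : NeZero p := ⟨hp.ne_zero⟩
    refine ⟨(a ⟨p, hp⟩ - ((m : ℕ) : ZMod p)).val, fun j hj he => ?_⟩
    have hjR := (mem_block.mp hj).2
    refine hjR.2 ⟨p, hp⟩ ?_ ?_
    · have h1 : V (block a m L).card ≤ V p := Pool.Agent.W2helper64.RS.V_anti hle
      have hm1 : (1 : ℝ) ≤ m := by exact_mod_cast hm
      have h2 : Real.log (m : ℝ) ≤ Real.log ((m + j : ℕ) : ℝ) :=
        Real.log_le_log (by linarith) (by exact_mod_cast Nat.le_add_right m j)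
      have h3 : 0 ≤ Real.log (m : ℝ) := Real.log_nonneg hm1
      have h4 : 0 ≤ V p := Pool.Agent.W2helper64.RS.V_nonneg p
      calc (1 : ℝ) ≤ V (block a m L).card * Real.log m := h
        _ ≤ V p * Real.log m := mul_le_mul_of_nonneg_right h1 h3
        _ ≤ V p * Real.log ((m + j : ℕ) : ℝ) := mul_le_mul_of_nonneg_left h2 h4
    · have h5 := (ZMod.natCast_eq_natCast_iff _ _ _).mpr he
      rw [ZMod.natCast_val, ZMod.cast_id', id] at h5
      push_cast
      show ((m : ℕ) : ZMod p) + ((j : ℕ) : ZMod p) = a ⟨p, hp⟩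
      rw [h5]
      ring
  · by_contra hcon
    push Not at hcon
    have hsub : Finset.range p ⊆ (block a m L).image (· % p) := by
      intro z hz
      obtain ⟨j, hj, he⟩ := hcon z
      refine Finset.mem_image.mpr ⟨j, hj, ?_⟩
      have e1 : j % p = z % p := he
      show j % p = z
      rw [e1, Nat.mod_eq_of_lt (Finset.mem_range.mp hz)]
    have h1 := (Finset.card_le_card hsub).trans Finset.card_image_le
    rw [Finset.card_range] at h1
    omega

/-- Almost surely, for all `m ≥ 1` and `L`, if `l` is the number of the elements of `R` in `[m, m + L]` and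
`V l ≥ 1 / log m`, then there are infinitely many `n` such that for every `j ≤ L` one has `n + j ∈ R` if and only
if `m + j ∈ R`. -/
theorem result : ∀ᵐ a ∂law, ∀ m L : ℕ, 1 ≤ m → 1 ≤ V (block a m L).card * Real.log m →
    {n : ℕ | ∀ j ≤ L, (n + j ∈ R a ↔ m + j ∈ R a)}.Infinite := by
  have h : ∀ k : ℕ, ∀ᵐ a ∂Pool.Agent.W2helper64.RS.law, ∃ C : ℝ, ∀ (L : ℕ) (H : Finset ℕ),
      H ⊆ Finset.range (L + 1) → H.card ≤ k → Pool.Agent.W2helper64.SI.Adm H → ∀ᶠ x : ℕ in atTop, ∃ n : ℕ, x < n ∧
        (n : ℝ) ≤ x + Real.log x ^ C ∧ ∀ j ≤ L, (n + j ∈ Pool.Agent.W2helper64.RS.R a ↔ j ∈ H) := by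
    intro k
    obtain ⟨C, hC⟩ := Pool.Agent.W2helper64.SI.exact_exists k
    filter_upwards [hC] with a ha
    exact ⟨C, ha⟩
  show ∀ᵐ a ∂Pool.Agent.W2helper64.RS.law, _
  filter_upwards [ae_all_iff.mpr h] with a ha m L hm hV
  obtain ⟨C, hC⟩ := ha (block a m L).card
  have h1 := hC L (block a m L) (fun j hj => Finset.mem_range.mpr (Nat.lt_succ_of_le (mem_block.mp hj).1)) le_rfl
    (adm_block hm hV)
  rw [Set.infinite_iff_exists_gt]
  intro b
  obtain ⟨x, hxb, n, hn1, -, hn3⟩ := ((eventually_ge_atTop b).and h1).exists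
  refine ⟨n, fun j hj => ?_, lt_of_le_of_lt hxb hn1⟩
  refine (hn3 j hj).trans ?_
  rw [mem_block]
  exact ⟨fun h => h.2, fun h => ⟨hj, h⟩⟩

end Pool.Agent.Results.MP_e36f12_nt.RandomSieveBlocks
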